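import Pool.Agent.helper88.RF.SpecW

/-!
# Project RF (MP_16912e_nt), row WRT: the zeros of the resultant
-/

set_option autoImplicit false

open Finset

namespace Pool.Agent.RF

/-- the algebra of the resultant -/
theorem WRT_alg {R : Type} [CommRing R] [IsDomain R] (A A' B X : R)
    (hRf : (A' * B) ^ 3 + 75 * (A' * B) ^ 2 * (A * X) - 625 * (A' * B) * (A * X) ^ 2 + 3125 * (A * X) ^ 3 -
      8 * (A * B ^ 5 + A' ^ 5 * X) = 0) (hP : A' * B + 25 * (A * X) ≠ 0) (h2 : (2 : R) ≠ 0) (h5 : (5 : R) ≠ 0)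
    (hne : B ≠ 0 ∨ X ≠ 0) :
    (∃ n k : R, n ≠ 0 ∧ k ≠ 0 ∧ 5 * A * n ^ 3 - 2 * A' * n * k ^ 2 + B * k ^ 3 = 0 ∧
      A' * n ^ 3 + 2 * B * n ^ 2 * k - 5 * X * k ^ 3 = 0) ∨ 5 * A * B ^ 2 = A' ^ 3 := by
  set P := A' * B + 25 * (A * X) with hPd
  obtain ⟨m₁, hm1⟩ : ∃ m, m = 20 * A * B ^ 3 - 2 * P * A' ^ 2 := ⟨_, rfl⟩
  obtain ⟨m₂, hm2⟩ : ∃ m, m = A' * B - 25 * (A * X) := ⟨_, rfl⟩
  obtain ⟨m₃, hm3⟩ : ∃ m, m = -20 * A' ^ 3 * X + 2 * B ^ 2 * P := ⟨_, rfl⟩
  have hid : (m₂ ^ 2) ^ 2 = m₁ * m₃ := by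
    rw [hm1, hm2, hm3, hPd]
    linear_combination 5 * (A' * B + 25 * (A * X)) * hRf
  by_cases h : m₁ = 0
  · right
    have h1 : m₂ = 0 := by
      rw [h, zero_mul] at hid
      exact pow_eq_zero_iff two_ne_zero |>.1 (pow_eq_zero_iff two_ne_zero |>.1 hid)
    have h3 : A' * B = 25 * (A * X) := by
      rw [hm2] at h1
      exact sub_eq_zero.1 h1
    have h4 : B ≠ 0 := by
      intro hB
      apply hP
      rw [hPd, ← h3, hB, mul_zero, add_zero]
    have h6 : (2 * 2 * B) * (5 * A * B ^ 2 - A' ^ 3) = 0 := by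
      rw [hm1, hPd, ← h3] at h
      linear_combination h
    rcases mul_eq_zero.1 h6 with h7 | h7
    · exact absurd h7 (mul_ne_zero (mul_ne_zero h2 h2) h4)
    · exact sub_eq_zero.1 h7
  · left
    have hE1 : 10 * (A * B) * (-m₂ ^ 2) ^ 2 + 2 * A' ^ 2 * (-m₂ ^ 2) * m₁ - P * m₁ ^ 2 = 0 := by
      have h1 : 10 * (A * B) * m₃ - 2 * A' ^ 2 * m₂ ^ 2 - P * m₁ = 0 := by
        rw [hm1, hm2, hm3, hPd]
        ring
      linear_combination m₁ * h1 + 10 * (A * B) * hid
    have hE2 : P * (-m₂ ^ 2) ^ 2 + 2 * B ^ 2 * (-m₂ ^ 2) * m₁ - 10 * (A' * X) * m₁ ^ 2 = 0 := by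
      have h1 : P * m₃ - 2 * B ^ 2 * m₂ ^ 2 - 10 * (A' * X) * m₁ = 0 := by
        rw [hm1, hm2, hm3, hPd]
        ring
      linear_combination m₁ * h1 + P * hid
    obtain ⟨n, hn⟩ : ∃ n, n = -m₂ ^ 2 := ⟨_, rfl⟩
    rw [← hn] at hE1 hE2
    obtain ⟨k, hk⟩ : ∃ k, k = m₁ := ⟨_, rfl⟩
    rw [← hk] at hE1 hE2 h
    obtain ⟨F1, hF1⟩ : ∃ F, F = 5 * A * n ^ 3 - 2 * A' * n * k ^ 2 + B * k ^ 3 := ⟨_, rfl⟩
    obtain ⟨F2, hF2⟩ : ∃ F, F = A' * n ^ 3 + 2 * B * n ^ 2 * k - 5 * X * k ^ 3 := ⟨_, rfl⟩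
    have e1 : A' * F1 - 5 * A * F2 = 0 := by
      rw [hF1, hF2]
      linear_combination -k * hE1 - k ^ 3 * hPd
    have e2 : 5 * X * F1 + B * F2 = 0 := by
      rw [hF1, hF2]
      linear_combination n * hE2 - n ^ 3 * hPd
    have z1 : F1 = 0 := by
      have h1 : P * F1 = 0 := by
        rw [hPd]
        linear_combination B * e1 + 5 * A * e2
      exact (mul_eq_zero.1 h1).resolve_left hP
    have z2 : F2 = 0 := by
      have h1 : P * F2 = 0 := by
        rw [hPd]
        linear_combination A' * e2 - 5 * X * e1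
      exact (mul_eq_zero.1 h1).resolve_left hP
    rw [hF1] at z1
    rw [hF2] at z2
    refine ⟨n, k, ?_, h, z1, z2⟩
    intro h0
    rw [h0] at z1 z2
    have hk3 : k ^ 3 ≠ 0 := pow_ne_zero 3 h
    have hB : B = 0 := by
      have h1 : B * k ^ 3 = 0 := by linear_combination z1
      exact (mul_eq_zero.1 h1).resolve_right hk3
    have hX : X = 0 := by
      have h1 : 5 * X * k ^ 3 = 0 := by linear_combination -z2
      exact (mul_eq_zero.1 ((mul_eq_zero.1 h1).resolve_right hk3)).resolve_left h5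
    rcases hne with h1 | h1
    · exact h1 hB
    · exact h1 hX

theorem WRT_ten (y t : ℤ) (h : y ^ 2 = 10 * t ^ 2) : t = 0 := by
  by_contra ht
  have h1 : IsSquare ((10 : ℕ) : ℚ) := by
    refine ⟨(y : ℚ) / t, ?_⟩
    have h2 : (t : ℚ) ≠ 0 := by exact_mod_cast ht
    field_simp
    exact_mod_cast h.symm
  rw [Rat.isSquare_natCast_iff] at h1
  obtain ⟨r, hr⟩ := h1
  have h2 : r ≤ 3 := by nlinarith
  interval_cases r <;> omega

theorem WRT_norm (x : OO) : x * star x = ((x.norm : ℤ) : OO) := by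
  rw [← QuadraticAlgebra.algebraMap_norm_eq_mul_star]
  rfl

theorem WRT_tr (x : OO) : ((trO x : ℤ) : OO) = x + star x := by
  unfold trO
  refine QuadraticAlgebra.ext ?_ ?_
  · rw [QuadraticAlgebra.re_intCast, QuadraticAlgebra.re_add, QuadraticAlgebra.re_star, Int.cast_id]
    ring
  · rw [QuadraticAlgebra.im_intCast, QuadraticAlgebra.im_add, QuadraticAlgebra.im_star]
    ring

theorem WRT_ph : ph * star ph = -1 := by
  unfold ph
  refine QuadraticAlgebra.ext ?_ ?_
  · simp [QuadraticAlgebra.re_one]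
  · simp [QuadraticAlgebra.im_one]

theorem WRT_n0 (hd : IsDomain OO) (x : OO) (h : x.norm = 0) : x = 0 := by
  have h1 := WRT_norm x
  rw [h, Int.cast_zero] at h1
  rcases mul_eq_zero.1 h1 with h2 | h2
  · exact h2
  · exact star_eq_zero.1 h2

theorem WRT_proof (hWEU : WEU_stmt) : WRT_stmt := by
  intro a z hne hR
  have hd : IsDomain OO := hWEU.1
  by_cases hZW : z.norm = 25 * a.norm
  · -- the degenerate case
    exfalso
    obtain ⟨τ, hτ⟩ : ∃ τ, τ = ph ^ 3 * a * star z ^ 5 := ⟨_, rfl⟩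
    have h1 : τ.norm = -(a.norm * z.norm ^ 5) := by
      rw [hτ, map_mul, map_mul, map_pow, map_pow, QuadraticAlgebra.norm_star]
      have : (ph : OO).norm = -1 := by
        unfold ph
        simp [QuadraticAlgebra.norm_def]
      rw [this]
      ring
    have h2 : trO τ ^ 2 - 4 * τ.norm = 5 * τ.im ^ 2 := by
      unfold trO
      rw [QuadraticAlgebra.norm_def]
      ring
    have h3 : trO τ = -6250 * a.norm ^ 3 := by
      unfold R0 at hR
      rw [← hτ, hZW] at hR
      have h4 : 8 * (trO τ + 6250 * a.norm ^ 3) = 0 := by linear_combination -hR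
      have h5 : trO τ + 6250 * a.norm ^ 3 = 0 := (mul_eq_zero.1 h4).resolve_left (by norm_num)
      linarith
    have h4 : τ.im ^ 2 = 10 * (1250 * a.norm ^ 3) ^ 2 := by
      rw [h3, h1, hZW] at h2
      have h5 : 5 * (τ.im ^ 2 - 10 * (1250 * a.norm ^ 3) ^ 2) = 0 := by linear_combination -h2
      have h6 := (mul_eq_zero.1 h5).resolve_left (by norm_num)
      linarith
    have h5 := WRT_ten _ _ h4
    have h6 : a.norm = 0 := by
      have h7 := (mul_eq_zero.1 h5).resolve_left (by norm_num)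
      exact pow_eq_zero_iff three_ne_zero |>.1 h7
    have h7 : z.norm = 0 := by rw [hZW, h6, mul_zero]
    rcases hne with h8 | h8
    · exact h8 (WRT_n0 hd a h6)
    · exact h8 (WRT_n0 hd z h7)
  · have hph := WRT_ph
    have hf0 : star ph ≠ 0 := by
      intro h
      rw [h, mul_zero] at hph
      have h1 := congrArg QuadraticAlgebra.re hph
      rw [QuadraticAlgebra.re_neg, QuadraticAlgebra.re_one, QuadraticAlgebra.re_zero] at h1
      norm_num at h1
    have hWa := WRT_norm a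
    have hZz := WRT_norm z
    have hT := WRT_tr (ph ^ 3 * a * star z ^ 5)
    have hst : star (ph ^ 3 * a * star z ^ 5) = star ph ^ 3 * star a * z ^ 5 := by
      simp only [star_mul', star_pow, star_star]
    rw [hst] at hT
    have hRc : (((R0 a z : ℤ)) : OO) = 0 := by rw [hR, Int.cast_zero]
    unfold R0 at hRc
    push_cast at hRc
    rw [hT, ← hWa, ← hZz] at hRc
    have hinj : ∀ n : ℤ, (n : OO) = 0 → n = 0 := by
      intro n hn
      have h1 := congrArg QuadraticAlgebra.re hn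
      rw [QuadraticAlgebra.re_intCast, QuadraticAlgebra.re_zero, Int.cast_id] at h1
      exact h1
    have hRf : (-(star ph * z) * -star z) ^ 3 + 75 * (-(star ph * z) * -star z) ^ 2 * (a * -(star ph * star a)) -
        625 * (-(star ph * z) * -star z) * (a * -(star ph * star a)) ^ 2 + 3125 * (a * -(star ph * star a)) ^ 3 -
        8 * (a * (-star z) ^ 5 + (-(star ph * z)) ^ 5 * -(star ph * star a)) = 0 := by
      have h1 : (ph * star ph) ^ 3 = -1 := by
        rw [hph]
        ring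
      linear_combination star ph ^ 3 * hRc + 8 * a * star z ^ 5 * h1
    have hP : -(star ph * z) * -star z + 25 * (a * -(star ph * star a)) ≠ 0 := by
      intro h
      apply hZW
      have h1 : star ph * (((z.norm - 25 * a.norm : ℤ)) : OO) = 0 := by
        push_cast
        rw [← hWa, ← hZz]
        linear_combination h
      have h2 := hinj _ ((mul_eq_zero.1 h1).resolve_left hf0)
      linarith
    have h2 : (2 : OO) ≠ 0 := by
      intro h
      have := hinj 2 (by exact_mod_cast h)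
      norm_num at this
    have h5 : (5 : OO) ≠ 0 := by
      intro h
      have := hinj 5 (by exact_mod_cast h)
      norm_num at this
    have hne' : (-star z : OO) ≠ 0 ∨ (-(star ph * star a) : OO) ≠ 0 := by
      rcases hne with h | h
      · right
        exact neg_ne_zero.2 (mul_ne_zero hf0 (star_ne_zero.2 h))
      · left
        exact neg_ne_zero.2 (star_ne_zero.2 h)
    rcases WRT_alg a (-(star ph * z)) (-star z) (-(star ph * star a)) hRf hP h2 h5 hne' with ⟨n, k, hn, hk, e1, e2⟩ | e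
    · left
      refine ⟨n, k, hn, hk, ?_, ?_⟩
      · linear_combination e1
      · linear_combination -e2
    · right
      linear_combination e

end Pool.Agent.RF
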